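import Pool.Agent.helper99.ZP.Spec

set_option autoImplicit false
set_option linter.unusedVariables false

namespace Pool.Agent.ZP

open Finset
open Pool.Agent.helper32.Cant
open Pool.Agent.GA (nrm chi ch St sg flp Psi rc ph pot rpot far nc gf ncs gfs good mj om pick pat et kap mult)
open Pool.Agent.ZR
open scoped ENNReal

noncomputable section

theorem FUB_cover (C : ℝ) (P : Set (ℝ × ℝ)) (hP : MeasureTheory.Measure.mkMetric (gp C) P = 0)
    (r ε : ℝ≥0∞) (hr : 0 < r) (hε : 0 < ε) :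
    ∃ t : ℕ → Set (ℝ × ℝ), P ⊆ ⋃ i, t i ∧ (∀ i, Metric.ediam (t i) ≤ r) ∧
      ∑' i, (⨆ _ : (t i).Nonempty, gp C (Metric.ediam (t i))) < ε := by
  rw [MeasureTheory.Measure.mkMetric_apply] at hP
  have h1 := iSup_eq_bot.1 (iSup_eq_bot.1 hP r) hr
  have h3 : (⊥ : ℝ≥0∞) < ε := hε
  rw [← h1] at h3
  simp only [iInf_lt_iff] at h3
  obtain ⟨t, h4, h5, h6⟩ := h3
  exact ⟨t, h4, h5, h6⟩

theorem FUB_gauge (C : ℝ) (d : ℝ≥0∞) :
    gz C d * ENNReal.ofReal (2 * d.toReal) = 2 * gp C d := by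
  unfold gz gp
  rw [← ENNReal.ofReal_mul (Real.exp_pos _).le]
  have h2 : (2 : ℝ≥0∞) = ENNReal.ofReal 2 := by simp
  rw [h2, ← ENNReal.ofReal_mul (by norm_num)]
  congr 1
  ring

theorem FUB_dist (s : Set (ℝ × ℝ)) (hs : Metric.ediam s ≠ ⊤) (a b : ℝ × ℝ) (ha : a ∈ s)
    (hb : b ∈ s) : |a.1 - b.1| ≤ (Metric.ediam s).toReal ∧ |a.2 - b.2| ≤ (Metric.ediam s).toReal := by
  have h1 : edist a b ≤ Metric.ediam s := Metric.edist_le_ediam_of_mem ha hb
  have h2 : dist a b ≤ (Metric.ediam s).toReal := by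
    rw [dist_edist]
    exact ENNReal.toReal_mono hs h1
  rw [Prod.dist_eq] at h2
  constructor
  · have := (le_max_left _ _).trans h2
    rwa [Real.dist_eq] at this
  · have := (le_max_right _ _).trans h2
    rwa [Real.dist_eq] at this

open MeasureTheory Filter in
theorem FUB : FUB_stmt := by
  classical
  intro C P hP
  have hpos : ∀ n : ℕ, (0 : ℝ≥0∞) < (2⁻¹ : ℝ≥0∞) ^ n := fun n => by
    apply pos_iff_ne_zero.2
    exact pow_ne_zero _ (by simp)
  choose t ht1 ht2 ht3 using fun n : ℕ => FUB_cover C P hP (ENNReal.ofReal (1 / ((n : ℝ) + 1)))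
    ((2⁻¹ : ℝ≥0∞) ^ n) (by positivity) (hpos n)
  have hfin : ∀ n i, Metric.ediam (t n i) ≠ ⊤ := fun n i =>
    ne_top_of_le_ne_top ENNReal.ofReal_ne_top (ht2 n i)
  set d : ℕ → ℕ → ℝ := fun n i => (Metric.ediam (t n i)).toReal with hd
  have hd0 : ∀ n i, 0 ≤ d n i := fun n i => ENNReal.toReal_nonneg
  set x₀ : ℕ → ℕ → ℝ := fun n i => if h : (t n i).Nonempty then h.some.1 else 0 with hx₀
  set I : ℕ → ℕ → Set ℝ := fun n i => Set.Icc (x₀ n i - d n i) (x₀ n i + d n i) with hI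
  set g : ℕ → ℕ → ℝ≥0∞ := fun n i => if (t n i).Nonempty then gz C (Metric.ediam (t n i)) else 0
    with hg
  have hFm : ∀ n i, Measurable ((I n i).indicator (fun _ : ℝ => g n i)) := fun n i =>
    measurable_const.indicator measurableSet_Icc
  have hF : ∀ n i, ∫⁻ x, (I n i).indicator (fun _ : ℝ => g n i) x ≤
      2 * ⨆ _ : (t n i).Nonempty, gp C (Metric.ediam (t n i)) := by
    intro n i
    rw [lintegral_indicator_const measurableSet_Icc, Real.volume_Icc]
    by_cases hne : (t n i).Nonempty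
    · have e1 : g n i = gz C (Metric.ediam (t n i)) := by rw [hg]; exact if_pos hne
      have e2 : x₀ n i + d n i - (x₀ n i - d n i) = 2 * (Metric.ediam (t n i)).toReal := by
        rw [hd]; ring
      rw [e1, e2, FUB_gauge, iSup_pos hne]
    · have e1 : g n i = 0 := by rw [hg]; exact if_neg hne
      rw [e1, zero_mul]
      exact zero_le
  set f : ℕ → ℝ → ℝ≥0∞ := fun n x => ∑' i, (I n i).indicator (fun _ : ℝ => g n i) x with hf
  have hfm : ∀ n, Measurable (f n) := fun n => Measurable.ennreal_tsum (hFm n)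
  have hfi : ∀ n, ∫⁻ x, f n x ≤ 2 * (2⁻¹ : ℝ≥0∞) ^ n := by
    intro n
    rw [hf]
    simp only
    rw [lintegral_tsum (fun i => (hFm n i).aemeasurable)]
    refine (ENNReal.tsum_le_tsum (hF n)).trans ?_
    rw [ENNReal.tsum_mul_left]
    exact mul_le_mul' le_rfl (ht3 n).le
  have hsum : ∫⁻ x, ∑' n, f n x ≠ ⊤ := by
    rw [lintegral_tsum (fun n => (hfm n).aemeasurable)]
    refine ne_top_of_le_ne_top ?_ (ENNReal.tsum_le_tsum hfi)
    rw [ENNReal.tsum_mul_left, ENNReal.tsum_geometric]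
    simp
    norm_num
  have hae := ae_lt_top (Measurable.ennreal_tsum hfm) hsum
  filter_upwards [hae] with x hx
  have hlim : Tendsto (fun n => f n x) atTop (nhds 0) :=
    ENNReal.tendsto_atTop_zero_of_tsum_ne_top hx.ne
  -- the fibre
  set y : ℕ → ℕ → ℝ := fun n i => sInf {r | (x, r) ∈ t n i} with hy
  have hr0 : Tendsto (fun n : ℕ => ENNReal.ofReal (1 / ((n : ℝ) + 1))) atTop (nhds 0) := by
    have := ENNReal.tendsto_ofReal (tendsto_one_div_add_atTop_nhds_zero_nat (𝕜 := ℝ))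
    simpa using this
  have hdiam : ∀ n i, Metric.ediam (Set.Icc (y n i) (y n i + d n i)) = Metric.ediam (t n i) := by
    intro n i
    rw [Real.ediam_Icc]
    rw [add_sub_cancel_left, hd]
    exact ENNReal.ofReal_toReal (hfin n i)
  have hcov : ∀ n : ℕ, {r | (x, r) ∈ P} ⊆
      ⋃ i : {i : ℕ // (t n i).Nonempty ∧ x ∈ I n i}, Set.Icc (y n i) (y n i + d n i) := by
    intro n r hr
    obtain ⟨i, hi⟩ := Set.mem_iUnion.1 (ht1 n hr)
    have hne : (t n i).Nonempty := ⟨_, hi⟩
    have hxI : x ∈ I n i := by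
      have e1 : x₀ n i = hne.some.1 := by rw [hx₀]; exact dif_pos hne
      have h1 := (FUB_dist (t n i) (hfin n i) (x, r) hne.some hi hne.some_mem).1
      have h2 := abs_le.1 h1
      rw [hI]
      simp only [Set.mem_Icc]
      rw [e1]
      simp only [hd]
      constructor <;> linarith [h2.1, h2.2]
    refine Set.mem_iUnion.2 ⟨⟨i, hne, hxI⟩, ?_⟩
    have hle : ∀ r' ∈ {r | (x, r) ∈ t n i}, r - d n i ≤ r' := by
      intro r' hr'
      have h1 := (FUB_dist (t n i) (hfin n i) (x, r) (x, r') hi hr').2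
      have h2 := (abs_le.1 h1).2
      simp only [hd]
      linarith
    have h1 : y n i ≤ r := csInf_le ⟨r - d n i, hle⟩ hi
    have h2 : r - d n i ≤ y n i := le_csInf ⟨r, hi⟩ hle
    exact ⟨h1, by linarith⟩
  have hmk := Measure.mkMetric_le_liminf_tsum (β := ℕ)
    (ι := fun n => {i : ℕ // (t n i).Nonempty ∧ x ∈ I n i}) {r | (x, r) ∈ P} (l := atTop)
    (fun n : ℕ => ENNReal.ofReal (1 / ((n : ℝ) + 1))) hr0
    (fun n i => Set.Icc (y n i) (y n i + d n i))
    (Eventually.of_forall fun n i => by rw [hdiam]; exact ht2 n i)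
    (Eventually.of_forall hcov) (gz C)
  have hle : ∀ n : ℕ, ∑' i : {i : ℕ // (t n i).Nonempty ∧ x ∈ I n i},
      gz C (Metric.ediam (Set.Icc (y n i) (y n i + d n i))) ≤ f n x := by
    intro n
    have e1 : ∀ i : {i : ℕ // (t n i).Nonempty ∧ x ∈ I n i},
        gz C (Metric.ediam (Set.Icc (y n i) (y n i + d n i))) =
          (I n i).indicator (fun _ : ℝ => g n i) x := by
      intro i
      rw [hdiam, Set.indicator_of_mem i.2.2]
      rw [hg]
      exact (if_pos i.2.1).symm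
    rw [tsum_congr e1]
    exact ENNReal.tsum_comp_le_tsum_of_injective Subtype.val_injective
      (fun i => (I n i).indicator (fun _ : ℝ => g n i) x)
  have hlow : liminf (fun n : ℕ => ∑' i : {i : ℕ // (t n i).Nonempty ∧ x ∈ I n i},
      gz C (Metric.ediam (Set.Icc (y n i) (y n i + d n i)))) atTop ≤ 0 := by
    rw [← hlim.liminf_eq]
    exact liminf_le_liminf (Eventually.of_forall hle)
  exact le_antisymm (hmk.trans hlow) zero_le

end

end Pool.Agent.ZP
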